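import Pool.Agent.W587.MX.Stm

/-! # One simple point together with branches over a disc -/

set_option autoImplicit false

namespace Pool.Agent.W120.MX

open Set Filter Topology Metric Pool.Agent.W587.MX

theorem pb_open (η : ℝ) : IsOpen (PB η) := by
  have h1 : IsOpen {u : ℂ | 0 < ‖u‖} := isOpen_lt continuous_const continuous_norm
  have h2 : IsOpen {u : ℂ | ‖u‖ < η} := isOpen_lt continuous_norm continuous_const
  exact h1.inter h2

theorem pb_sub (η : ℝ) : PB η ⊆ ball (0 : ℂ) η := by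
  intro u hu
  rw [mem_ball_zero_iff]
  exact hu.2

theorem sol_ne {f A g : ℂ → ℂ} {U : Set ℂ} (hS : Sol f A g U) (hA0 : ∀ u ∈ U, A u ≠ 0) :
    ∀ u ∈ U, g u ≠ 0 := by
  intro u hu hg
  obtain ⟨h1, h2⟩ := hS u hu
  rw [hg, zero_mul] at h2
  rw [hg] at h1
  exact mul_ne_zero (hA0 u hu) h1 h2.symm

theorem half (h6 : T6_NZ) (hS2 : S2_TIE) (f fs : ℂ → ℂ) (K : ℕ) (η : ℝ) (A : ℂ → ℂ) (a1 : ℂ)
    (z w : Fin K → ℂ) (t1 : ℂ) (i0 i : Fin K) (g0 h0 g : ℂ → ℂ) (hf : Differentiable ℂ f)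
    (hfs : Differentiable ℂ fs) (hSP : SP f fs K a1 z w) (hpb : IsPreconnected (PB η))
    (hA : DifferentiableOn ℂ A (PB η)) (hA0 : ∀ u ∈ PB η, A u ≠ 0) (ht1 : t1 ∈ PB η)
    (hAt1 : A t1 = a1) (hg0 : DifferentiableOn ℂ g0 (PB η)) (hh0 : DifferentiableOn ℂ h0 (PB η))
    (hSg0 : Sol f A g0 (PB η)) (hSh0 : Sol fs A h0 (PB η)) (hgt : g0 t1 = z i0)
    (hht : h0 t1 = w i0) (hg : DifferentiableOn ℂ g (PB η)) (hSg : Sol f A g (PB η))
    (hgt' : g t1 = z i) :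
    DifferentiableOn ℂ (fun u => g0 u * h0 u / g u) (PB η) ∧
      Sol fs A (fun u => g0 u * h0 u / g u) (PB η) ∧
      ∀ u ∈ PB η, g u * (g0 u * h0 u / g u) = g0 u * h0 u := by
  have hU := pb_open η
  have hmem : PB η ∈ 𝓝 t1 := hU.mem_nhds ht1
  have ng := sol_ne hSg hA0
  have ng0 := sol_ne hSg0 hA0
  have nh0 := sol_ne hSh0 hA0
  have hd : DifferentiableOn ℂ (fun u => g0 u * h0 u / g u) (PB η) := (hg0.mul hh0).div hg ng
  have hev := hS2 f fs K a1 z w A g0 h0 g t1 i0 i hf hfs hSP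
    (hA.differentiableAt hmem).continuousAt hAt1 (hg0.differentiableAt hmem).continuousAt
    (hh0.differentiableAt hmem).continuousAt (hg.differentiableAt hmem).continuousAt hgt hht hgt'
    (Filter.mem_of_superset hmem fun u hu => (hSg0 u hu).2)
    (Filter.mem_of_superset hmem fun u hu => (hSh0 u hu).2)
    (Filter.mem_of_superset hmem fun u hu => (hSg u hu).2)
  have hfs' : Differentiable ℂ (deriv fs) := by
    intro x
    exact (hfs.analyticAt x).deriv.differentiableAt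
  have hL : DifferentiableOn ℂ
      (fun u => (g0 u * h0 u / g u) * deriv fs (g0 u * h0 u / g u)) (PB η) :=
    hd.mul (hfs'.comp_differentiableOn hd)
  have hR : DifferentiableOn ℂ (fun u => A u * fs (g0 u * h0 u / g u)) (PB η) :=
    hA.mul (hfs.comp_differentiableOn hd)
  have heq : EqOn (fun u => (g0 u * h0 u / g u) * deriv fs (g0 u * h0 u / g u))
      (fun u => A u * fs (g0 u * h0 u / g u)) (PB η) :=
    (hL.analyticOnNhd hU).eqOn_of_preconnected_of_eventuallyEq (hR.analyticOnNhd hU) hpb ht1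
      (hev.mono fun u hu => hu.2.2)
  have hnz : ∀ u ∈ PB η, g0 u * h0 u / g u ≠ 0 := fun u hu =>
    div_ne_zero (mul_ne_zero (ng0 u hu) (nh0 u hu)) (ng u hu)
  have h7 := h6 fs (fun u => g0 u * h0 u / g u) A (PB η) hfs hU hpb hd hA hnz heq
    ⟨t1, ht1, hev.self_of_nhds.2.1⟩
  refine ⟨hd, fun u hu => ⟨h7 u hu, heq hu⟩, fun u hu => ?_⟩
  exact mul_div_cancel₀ _ (ng u hu)

theorem t8_step (_h1 : T1_UNIQ) (h6 : T6_NZ) (h7 : T7_DISC) (hS1 : S1_SYM) (hS2 : S2_TIE)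
    (hS3 : S3_NONC) (hpb : ∀ η, IsPreconnected (PB η)) : T8_STEP := by
  intro f fs K κ η A a1 z w t1 i0 g0 h0 hf hfs hκ hη hlow hSP hA hA0 hA' ht1 hAt1 hg0 hh0 hSg hSh
    hgt hht hnorm hdis
  have hU := pb_open η
  have hmem : PB η ∈ 𝓝 t1 := hU.mem_nhds ht1
  have hg0' := hg0.mono (pb_sub η)
  have hh0' := hh0.mono (pb_sub η)
  obtain ⟨hSP', hzw⟩ := hS1 f fs K a1 z w hSP
  have tie : ∀ i j, z i * w i = z j * w j := by
    obtain ⟨_, _, Z, W, hZ, hW, hZW, _⟩ := hSP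
    intro i j
    have := (hZW i j).self_of_nhds
    rw [(hZ i).2, (hW i).2, (hZ j).2, (hW j).2] at this
    exact this
  have hall : ∀ i, ∃ g h : ℂ → ℂ, DifferentiableOn ℂ g (PB η) ∧ DifferentiableOn ℂ h (PB η) ∧
      Sol f A g (PB η) ∧ Sol fs A h (PB η) ∧ (∀ u ∈ PB η, g u * h u = g0 u * h0 u) ∧
      g t1 = z i := by
    intro i
    rcases hdis i with ⟨g, hg, hSg', hgt'⟩ | ⟨h, hh, hSh', hht'⟩
    · obtain ⟨a, b, c⟩ := half h6 hS2 f fs K η A a1 z w t1 i0 i g0 h0 g hf hfs hSP (hpb η) hA hA0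
        ht1 hAt1 hg0' hh0' hSg hSh hgt hht hg hSg' hgt'
      exact ⟨g, _, hg, a, hSg', b, c, hgt'⟩
    · obtain ⟨a, b, c⟩ := half h6 hS2 fs f K η A a1 w z t1 i0 i h0 g0 h hfs hf hSP' (hpb η) hA hA0
        ht1 hAt1 hh0' hg0' hSh hSg hht hgt hh hSh' hht'
      refine ⟨fun u => h0 u * g0 u / h u, h, a, hh, b, hSh', fun u hu => ?_, ?_⟩
      · rw [mul_comm, c u hu, mul_comm]
      · show h0 t1 * g0 t1 / h t1 = z i
        rw [hht, hgt, hht', div_eq_iff (hzw i).2, mul_comm (w i0), tie i0 i]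
  choose g h hg hh hSgi hShi hprod hgi using hall
  have hinj : Function.Injective z := hSP.2.1
  have hK : 0 < K := by
    have := i0.isLt
    omega
  refine h7 f fs K κ η A (fun u => g0 u * h0 u) g h hf hfs hK hκ hη hlow hA hA0 hA' hg hh hSgi hShi
    (hg0.mul hh0) hprod hnorm ?_ ?_
  · by_contra hc
    push Not at hc
    refine hS3 f fs K a1 z w A g0 h0 t1 i0 hf hfs hSP (hA.analyticAt hmem) hAt1 (hA' t1 ht1)
      (hg0'.differentiableAt hmem).continuousAt (hh0'.differentiableAt hmem).continuousAt hgt hht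
      (Filter.mem_of_superset hmem fun u hu => (hSg u hu).2)
      (Filter.mem_of_superset hmem fun u hu => (hSh u hu).2) ?_
    refine Filter.mem_of_superset hmem fun u hu => ?_
    show g0 u * h0 u = g0 t1 * h0 t1
    rw [hc u (pb_sub η hu), hc t1 (pb_sub η ht1)]
  · intro i j hij
    refine ⟨t1, ht1, ?_⟩
    rw [hgi, hgi]
    exact fun e => hij (hinj e)

end Pool.Agent.W120.MX
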